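import Pool.Agent.Helper47.Manh.Model

set_option autoImplicit false

open MeasureTheory Filter
open Pool.Agent.Helper47.Manh (V)

namespace Pool.Agent.Results.MP_0b18d4_pr.AveragedLower

/-- Walk on the randomly oriented Manhattan lattice, turn probability `1/2`, `V t = E |X_t|^2`:
the time averages of `V` are at least of order `t ^ (9/7) / (log t) ^ (6/7)`. -/
theorem result : ∃ c : ℝ, 0 < c ∧ ∀ t : ℕ, 2 ≤ t →
      c * ((t : ℝ) ^ ((9 : ℝ) / 7) / (Real.log t) ^ ((6 : ℝ) / 7)) ≤
        (∑ s ∈ Finset.range (t + 1), V s) / t :=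
  Pool.Agent.Helper47.Manh.avg97 Pool.Agent.Helper47.Manh.facts

end Pool.Agent.Results.MP_0b18d4_pr.AveragedLower
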