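import Pool.Agent.Helper47.Manh.Model

set_option autoImplicit false

open MeasureTheory Filter
open Pool.Agent.Helper47.Manh (V)

namespace Pool.Agent.Results.MP_0b18d4_pr.Equivalence

/-- Walk on the randomly oriented Manhattan lattice, turn probability `1/2`, `V t = E |X_t|^2`:
the conjectured law `log V(t) / log t → 4/3` holds if and only if the time averages of `V` are
eventually at most `t ^ (4/3 + ε)`, for every `ε > 0`. -/
theorem result :
    Tendsto (fun t : ℕ => Real.log (V t) / Real.log (t : ℝ)) atTop (nhds (4 / 3 : ℝ)) ↔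
      ∀ ε : ℝ, 0 < ε → ∀ᶠ t : ℕ in atTop,
        (∑ s ∈ Finset.range (t + 1), V s) / t ≤ (t : ℝ) ^ ((4 : ℝ) / 3 + ε) :=
  Pool.Agent.Helper47.Manh.equiv43 Pool.Agent.Helper47.Manh.facts

end Pool.Agent.Results.MP_0b18d4_pr.Equivalence
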