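import Pool.Agent.Helper47.Manh.Model

set_option autoImplicit false

open MeasureTheory Filter
open Pool.Agent.Helper47.Manh (V)

namespace Pool.Agent.Results.MP_0b18d4_pr.InfinitelyOften

/-- Walk on the randomly oriented Manhattan lattice, turn probability `1/2`, `V t = E |X_t|^2`:
`V t ≥ t ^ (4/3) / 10` for infinitely many `t`. -/
theorem result : ∃ᶠ t : ℕ in atTop, (t : ℝ) ^ ((4 : ℝ) / 3) / 10 ≤ V t :=
  Pool.Agent.Helper47.Manh.freq43 Pool.Agent.Helper47.Manh.facts

end Pool.Agent.Results.MP_0b18d4_pr.InfinitelyOften
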