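import Pool.Agent.Helper47.Manh.Model

set_option autoImplicit false

open MeasureTheory Filter
open Pool.Agent.Helper47.Manh (Q)

namespace Pool.Agent.Results.MP_0b18d4_pr.MaximumLower

/-- Walk on the randomly oriented Manhattan lattice, turn probability `1/2`,
`Q t = E max_{s ≤ t} |X_s|^2`: this is at least `t ^ (4/3) / 4` for every `t`. -/
theorem result : ∀ t : ℕ, (t : ℝ) ^ ((4 : ℝ) / 3) / 4 ≤ Q t :=
  Pool.Agent.Helper47.Manh.Q_lower

end Pool.Agent.Results.MP_0b18d4_pr.MaximumLower
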